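import Pool.Agent.Mg.Fc6d393p.G3cf575

set_option autoImplicit false

/-- For every `A > e log 2` there are a constant `C` and infinitely many `n` with
`τ(n - k) ≤ C k ^ A` for all shifts `1 ≤ k < n`. -/
theorem Pool.Agent.Results.MP_cebb75_nt.PowerBound.result (A : ℝ)
    (hA : Real.exp 1 * Real.log 2 < A) :
    ∃ C : ℝ, {n : ℕ | ∀ k : ℕ, 1 ≤ k → k < n →
      ((Nat.divisors (n - k)).card : ℝ) ≤ C * (k : ℝ) ^ A}.Infinite := by
  obtain ⟨C, hC0, hC⟩ := Pool.Agent.MP_cebb75_nt.X.exists_good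
    (min (1 / 10) ((A - Real.exp 1 * Real.log 2) / 16)) (lt_min (by norm_num) (by linarith))
    (min_le_left _ _)
  refine ⟨C, Set.infinite_of_not_bddAbove ?_⟩
  rintro ⟨N, hN⟩
  obtain ⟨n, h1, h2⟩ := hC N
  refine absurd (hN (a := n) fun k h3 h4 => (h2 k h3 h4).trans ?_) (not_le.2 h1)
  refine mul_le_mul_of_nonneg_left
    (Real.rpow_le_rpow_of_exponent_le (by exact_mod_cast h3) ?_) hC0.le
  linarith [min_le_right (1 / 10) ((A - Real.exp 1 * Real.log 2) / 16)]
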