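import Pool.Agent.MP_cebb75_nt.N.Slack

set_option autoImplicit false

open Filter

/-- For every `b < log 2`, the integers `n ≤ x` with `τ(n - k) ≤ k + (log x)^b` for all shifts
number at most `x exp (-c (log x)^(1/2) / (log log x)^(5/4))` for large `x`. -/
theorem Pool.Agent.Results.MP_cebb75_nt.Slack.result :
    ∃ c : ℝ, 0 < c ∧ ∀ b : ℝ, b < Real.log 2 → ∀ᶠ x : ℕ in atTop,
      (({n : ℕ | n ≤ x ∧ ∀ k : ℕ, 1 ≤ k → k < n →
          ((Nat.divisors (n - k)).card : ℝ) ≤ (k : ℝ) + Real.log x ^ b}.ncard : ℕ) : ℝ) ≤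
        x * Real.exp (-(c * Real.sqrt (Real.log x) / Real.log (Real.log x) ^ (5 / 4 : ℝ))) := by
  refine ⟨1 / (220 * Real.exp 5), by positivity, fun b hb => ?_⟩
  have h1 : Tendsto (fun x : ℕ => Real.log x) atTop atTop :=
    Real.tendsto_log_atTop.comp tendsto_natCast_atTop_atTop
  have h2 := Real.tendsto_log_atTop.comp h1
  have h3 := ((tendsto_rpow_atTop (show (0 : ℝ) < 1 / 4 by norm_num)).comp h2).const_mul_atTop
    (show 0 < Real.log 2 - b by linarith)
  filter_upwards [h1.eventually_gt_atTop 0, h2.eventually_ge_atTop 1296,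
    h3.eventually_ge_atTop 17] with x h4 h5 h6
  exact Pool.Agent.MP_cebb75_nt.N.slack b x h4 h5 h6
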