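import Pool.Agent.Mg.Fc6d393p.Gb70343

set_option autoImplicit false

/-- Let `s ≥ 1`, `γ ≥ 0` and `γ > (s / log 2) log (e log 2 / s)`. There is a constant `C` such
that for every sequence of shifts `κ i ≥ i ^ s` infinitely many `n` satisfy
`τ(n - κ i) ≤ max (κ i) C` for all but fewer than `I ^ γ` of the indices `i ≤ I` with `κ i < n`,
for every `I ≥ 1` at once. -/
theorem Pool.Agent.Results.MP_cebb75_nt.SparseShifts.result (s γ : ℝ) (hs : 1 ≤ s) (hγ : 0 ≤ γ)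
    (h : s / Real.log 2 * Real.log (Real.exp 1 * Real.log 2 / s) < γ) :
    ∃ C : ℝ, ∀ κ : ℕ → ℕ, (∀ i : ℕ, 1 ≤ i → (i : ℝ) ^ s ≤ (κ i : ℝ)) →
      {n : ℕ | ∀ I : ℕ, 1 ≤ I →
        (((Finset.Icc 1 I).filter fun i : ℕ => κ i < n ∧
          max (κ i : ℝ) C < ((Nat.divisors (n - κ i)).card : ℝ)).card : ℝ) <
            (I : ℝ) ^ γ}.Infinite := by
  obtain ⟨η, z, h0, h1, hz1, hz3, hg⟩ := Pool.Agent.MP_cebb75_nt.Y.exists_z hγ hs h
  obtain ⟨C, hC⟩ := Pool.Agent.MP_cebb75_nt.Y.exists_good η z γ s h0 h1 hz1 hz3 hγ hs hg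
  refine ⟨C, fun κ hκ => Set.infinite_of_not_bddAbove ?_⟩
  rintro ⟨N, hN⟩
  obtain ⟨n, h2, h3⟩ := hC κ hκ N
  exact absurd (hN (a := n) h3) (not_le.2 h2)
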