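import Pool.Agent.MP_cebb75_nt.N.Tails

set_option autoImplicit false

open Filter

/-- For every `lam > 2` with `lam log (2 e / lam) > 1`, the integers `n ≤ x` with
`τ(n - k) ≤ k + (log x)^(lam log 2)` for all shifts number at most `x exp (-(log x)^γ)`. -/
theorem Pool.Agent.Results.MP_cebb75_nt.Tail.result (lam : ℝ) (h2 : 2 < lam)
    (h : 1 < lam * Real.log (2 * Real.exp 1 / lam)) :
    ∃ γ : ℝ, 0 < γ ∧ ∀ᶠ x : ℕ in atTop,
      (({n : ℕ | n ≤ x ∧ ∀ k : ℕ, 1 ≤ k → k < n →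
          ((Nat.divisors (n - k)).card : ℝ) ≤
            (k : ℝ) + Real.log x ^ (lam * Real.log 2)}.ncard : ℕ) : ℝ) ≤
        x * Real.exp (-(Real.log x ^ γ)) :=
  Pool.Agent.MP_cebb75_nt.N.lower lam h2 h
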